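import Mathlib
import Pool.Agent.Lib_helper69.HuntCE3

/-!
# A pure jump subordinator with infinite Lévy measure for which Hunt's hypothesis (H) fails

The processes are realised on a probability space `(Ω, P)` and start at `0`; the law `P^x` of
the process started at `x` is the law of `x + X` under `P`.

The Lévy measure is `μ = ∑ b_n² δ_{a_n}` with `b_n = 2 ^ (4 ^ n)` and `a_n = 1 / b_{n+1}`, so that
`b_n a_j` is an integer for `j < n`. With `s_n = b_n ∫_{(0, a_n]} x μ(dx) → 0`, almost surely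
`fract (b_n X_t) / s_n → t` for all `t ≥ 0` simultaneously, so the position determines the time.
The Borel set `A = {x | fract (b_n x) / s_n → 1}` is hit by the process started at `0` (at time
`1`), while from every starting point it is hit at most once.
-/

open MeasureTheory ProbabilityTheory Filter Topology Set
open scoped NNReal ENNReal

namespace Pool.Agent.Results.MP_4b85d8_pr.HuntHFails

/-- `X = (X_t)_{t ≥ 0}` is a real valued Lévy process under `P`, started at `0`: stationary and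
independent increments, right continuous paths with left limits. -/
structure IsLevyProcess {Ω : Type*} [MeasurableSpace Ω] (P : Measure Ω) (X : ℝ≥0 → Ω → ℝ) :
    Prop where
  isProbabilityMeasure : IsProbabilityMeasure P
  measurable : ∀ t, Measurable (X t)
  zero : ∀ ω, X 0 ω = 0
  independent_increments : HasIndepIncrements X P
  stationary_increments : ∀ s t : ℝ≥0, IdentDistrib (fun ω => X (s + t) ω - X s ω) (X t) P P
  right_continuous : ∀ ω t, ContinuousWithinAt (fun s => X s ω) (Ici t) t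
  left_limits : ∀ ω t, ∃ l : ℝ, Tendsto (fun s => X s ω) (𝓝[<] t) (𝓝 l)

/-- `X` is a pure jump (drift zero) subordinator with Lévy measure `μ`: a Lévy process with
nondecreasing paths, where `μ` is a measure carried by `(0, ∞)` with `∫ (1 ∧ x) μ(dx) < ∞` and
`E[exp (-l X_t)] = exp (-t ∫ (1 - exp (-l x)) μ(dx))` for all `t, l ≥ 0`. -/
structure IsPureJumpSubordinator {Ω : Type*} [MeasurableSpace Ω] (P : Measure Ω)
    (X : ℝ≥0 → Ω → ℝ) (μ : Measure ℝ) : Prop extends IsLevyProcess P X where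
  monotone : ∀ ω, Monotone (fun t => X t ω)
  levy_measure_pos : μ (Iic 0) = 0
  levy_measure_int : ∫⁻ x, ENNReal.ofReal (min 1 x) ∂μ < ∞
  laplace : ∀ (t : ℝ≥0) (l : ℝ), 0 ≤ l →
    ∫ ω, Real.exp (-(l * X t ω)) ∂P = Real.exp (-(t * ∫ x, (1 - Real.exp (-(l * x))) ∂μ))

/-- The hitting time `T_B = inf {t > 0 : x + X_t ∈ B}` (with `inf ∅ = ∞`) of the set `B` by the
process started at `x`. -/
noncomputable def hitTime {Ω : Type*} (X : ℝ≥0 → Ω → ℝ) (x : ℝ) (B : Set ℝ) (ω : Ω) : ℝ≥0∞ :=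
  sInf {s : ℝ≥0∞ | ∃ t : ℝ≥0, 0 < t ∧ x + X t ω ∈ B ∧ s = t}

/-- `A` is polar: `P^x (T_A < ∞) = 0` for every `x`. -/
def IsPolar {Ω : Type*} [MeasurableSpace Ω] (P : Measure Ω) (X : ℝ≥0 → Ω → ℝ) (A : Set ℝ) : Prop :=
  ∀ x : ℝ, P {ω | hitTime X x A ω < ∞} = 0

/-- `A` is thin: `A ⊆ B` for a Borel set `B` with `P^x (T_B = 0) = 0` for every `x`. -/
def IsThin {Ω : Type*} [MeasurableSpace Ω] (P : Measure Ω) (X : ℝ≥0 → Ω → ℝ) (A : Set ℝ) : Prop :=
  ∃ B : Set ℝ, MeasurableSet B ∧ A ⊆ B ∧ ∀ x : ℝ, P {ω | hitTime X x B ω = 0} = 0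

/-- `A` is semipolar: it is contained in a countable union of thin sets. -/
def IsSemipolar {Ω : Type*} [MeasurableSpace Ω] (P : Measure Ω) (X : ℝ≥0 → Ω → ℝ)
    (A : Set ℝ) : Prop :=
  ∃ B : ℕ → Set ℝ, (∀ n, IsThin P X (B n)) ∧ A ⊆ ⋃ n, B n

lemma hitTime_lt_top {Ω : Type*} {X : ℝ≥0 → Ω → ℝ} {x : ℝ} {B : Set ℝ} {ω : Ω} {t : ℝ≥0}
    (ht : 0 < t) (h : x + X t ω ∈ B) : hitTime X x B ω < ∞ :=
  lt_of_le_of_lt (sInf_le ⟨t, ht, h, rfl⟩) ENNReal.coe_lt_top

lemma exists_two_of_hitTime_eq_zero {Ω : Type*} {X : ℝ≥0 → Ω → ℝ} {x : ℝ} {B : Set ℝ} {ω : Ω}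
    (h : hitTime X x B ω = 0) :
    ∃ t u : ℝ≥0, t ≠ u ∧ x + X t ω ∈ B ∧ x + X u ω ∈ B := by
  have h1 : ∀ ε : ℝ≥0, 0 < ε → ∃ t : ℝ≥0, 0 < t ∧ t < ε ∧ x + X t ω ∈ B := by
    intro ε hε
    have h2 : sInf {s : ℝ≥0∞ | ∃ t : ℝ≥0, 0 < t ∧ x + X t ω ∈ B ∧ s = t} < (ε : ℝ≥0∞) := by
      have : hitTime X x B ω < (ε : ℝ≥0∞) := by rw [h]; exact_mod_cast hε
      exact this
    obtain ⟨s, ⟨t, ht0, htB, rfl⟩, hs⟩ := sInf_lt_iff.mp h2
    exact ⟨t, ht0, by exact_mod_cast hs, htB⟩
  obtain ⟨t, ht0, _, htB⟩ := h1 1 one_pos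
  obtain ⟨u, _, hut, huB⟩ := h1 t ht0
  exact ⟨t, u, hut.ne', htB, huB⟩

/-- There are a pure jump subordinator with infinite Lévy measure and a (Borel) semipolar set
which is not polar for it: Hunt's hypothesis (H) fails for it. -/
theorem result :
    ∃ (μ : Measure ℝ) (Ω : Type) (_ : MeasurableSpace Ω) (P : Measure Ω) (X : ℝ≥0 → Ω → ℝ),
      IsPureJumpSubordinator P X μ ∧ μ (Ioi 0) = ∞ ∧
        ∃ A : Set ℝ, MeasurableSet A ∧ IsSemipolar P X A ∧ ¬ IsPolar P X A := by
  have : SFinite (Lib_helper69.levyInt Lib_helper69.mu) := by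
    unfold Lib_helper69.levyInt; infer_instance
  obtain ⟨c, ρ, hρ, hν⟩ := Lib_helper69.exists_decomp (Lib_helper69.levyInt Lib_helper69.mu)
  have hae := Lib_helper69.ae_nice hν
  refine ⟨Lib_helper69.mu, Lib_helper69.Smp, inferInstance, Lib_helper69.prmLaw c ρ,
    Lib_helper69.X, ?_, Lib_helper69.mu_Ioi, Lib_helper69.AA, Lib_helper69.measurableSet_AA,
    ?_, ?_⟩
  · refine { isProbabilityMeasure := inferInstance
             measurable := Lib_helper69.measurable_X
             zero := Lib_helper69.X_zero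
             independent_increments := Lib_helper69.X_indep _ Lib_helper69.lintegral_id_mu hν
             stationary_increments := Lib_helper69.X_stat _ Lib_helper69.lintegral_id_mu hν
             right_continuous := Lib_helper69.X_rightCts
             left_limits := fun ω t => ⟨_, (Lib_helper69.X_mono ω).tendsto_nhdsLT t⟩
             monotone := Lib_helper69.X_mono
             levy_measure_pos := Lib_helper69.mu_Iic
             levy_measure_int := ?_
             laplace := ?_ }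
    · refine lt_of_le_of_lt (lintegral_mono (fun x => ?_))
        (lt_top_iff_ne_top.mpr Lib_helper69.lintegral_id_mu)
      exact ENNReal.ofReal_le_ofReal (min_le_right _ _)
    · intro t l hl
      have h := Lib_helper69.X_laplace _ Lib_helper69.mu_Iic Lib_helper69.lintegral_id_mu hν t l hl
      simpa only [neg_mul] using h
  · refine ⟨fun _ => Lib_helper69.AA, fun _ => ⟨Lib_helper69.AA, Lib_helper69.measurableSet_AA,
      le_rfl, fun x => ?_⟩, subset_iUnion (fun _ : ℕ => Lib_helper69.AA) 0⟩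
    refine measure_mono_null (fun ω hω => ?_) hae
    intro hn
    obtain ⟨t, u, htu, ht, hu⟩ := exists_two_of_hitTime_eq_zero hω
    exact htu (hn.unique ht hu)
  · intro hpol
    have h0 := hpol 0
    have h1 : ∀ᵐ ω ∂(Lib_helper69.prmLaw c ρ),
        ω ∈ {ω | hitTime Lib_helper69.X 0 Lib_helper69.AA ω < ∞} := by
      filter_upwards [hae] with ω hω
      exact hitTime_lt_top one_pos (by rw [zero_add]; exact hω.mem)
    have h2 : ∀ᵐ ω ∂(Lib_helper69.prmLaw c ρ), False := by
      have h3 : ∀ᵐ ω ∂(Lib_helper69.prmLaw c ρ),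
          ω ∉ {ω | hitTime Lib_helper69.X 0 Lib_helper69.AA ω < ∞} := by
        rw [ae_iff]
        refine measure_mono_null (fun ω hω => ?_) h0
        exact not_not.mp hω
      filter_upwards [h1, h3] with ω h4 h5 using h5 h4
    have h6 := h2.exists
    exact h6.elim (fun _ h => h)

end Pool.Agent.Results.MP_4b85d8_pr.HuntHFails
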